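import Mathlib

/-!
# MP_4b3b27_co: a self-similar polygonal tiling that is not obtained by the generating-pair method

The plane is `ℂ`.  The tiling: the plane is cut into the `2 × 2` blocks with corners at the even lattice points; the
block number `(i, j)` is cut into two vertical dominoes if `i` and `j` are both even and into two horizontal dominoes
otherwise.
-/

set_option autoImplicit false

namespace Pool.Agent.Results.MP_4b3b27_co.NotFromPair

/-- a similitude of ratio `r > 0` -/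
def IsSim (r : ℝ) (f : ℂ → ℂ) : Prop := 0 < r ∧ ∀ x y, dist (f x) (f y) = r * dist x y

/-- a (simple) closed polygon: the closed region bounded by a closed polygonal curve with at least three vertices
`v 0, ..., v (n+2)` whose sides meet only at vertices -/
def IsPolygon (P : Set ℂ) : Prop :=
  ∃ (n : ℕ) (v : Fin (n + 3) → ℂ), Function.Injective v ∧
    (∀ i j, i ≠ j → segment ℝ (v i) (v (i + 1)) ∩ segment ℝ (v j) (v (j + 1)) ⊆
      {v i, v (i + 1)} ∩ {v j, v (j + 1)}) ∧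
    frontier P = ⋃ i, segment ℝ (v i) (v (i + 1)) ∧ IsCompact P ∧ P = closure (interior P) ∧
    IsConnected (interior P)

/-- a tiling of the plane: compact sets whose union is the plane, any two meeting only in boundary points -/
def IsTiling (T : Set (Set ℂ)) : Prop :=
  (∀ t ∈ T, IsCompact t) ∧ ⋃₀ T = Set.univ ∧
    ∀ t ∈ T, ∀ t' ∈ T, t ≠ t' → t ∩ t' ⊆ frontier t ∩ frontier t'

/-- `A` and `B` are congruent -/
def Congruent (A B : Set ℂ) : Prop := ∃ g : ℂ ≃ᵢ ℂ, B = g '' A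

/-- finitely many tiles up to congruence -/
def FiniteOrder (T : Set (Set ℂ)) : Prop :=
  ∃ S : Finset (Set ℂ), ↑S ⊆ T ∧ ∀ t ∈ T, ∃ t₀ ∈ S, Congruent t₀ t

/-- a patch: a set of tiles whose union is a topological disk -/
def IsPatch (T U : Set (Set ℂ)) : Prop :=
  U ⊆ T ∧ Nonempty (↥(⋃₀ U) ≃ₜ ↥(Metric.closedBall (0 : ℂ) 1))

/-- quasiperiodic: for every patch `U` there is `R > 0` such that each disk of radius `R` contains a patch
congruent to `U` -/
def QuasiPeriodic (T : Set (Set ℂ)) : Prop :=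
  ∀ U, IsPatch T U → ∃ R > 0, ∀ x : ℂ, ∃ U', IsPatch T U' ∧ ⋃₀ U' ⊆ Metric.closedBall x R ∧
    ∃ g : ℂ ≃ᵢ ℂ, U' = (fun t : Set ℂ => g '' t) '' U

/-- self-similar: some similitude of ratio `> 1` sends every tile to a union of tiles -/
def SelfSimilar (T : Set (Set ℂ)) : Prop :=
  ∃ (r : ℝ) (φ : ℂ → ℂ), 1 < r ∧ IsSim r φ ∧ ∀ t ∈ T, ∃ V ⊆ T, φ '' t = ⋃₀ V

/-- a self-similar polygonal tiling -/
def IsSSPT (T : Set (Set ℂ)) : Prop :=
  IsTiling T ∧ SelfSimilar T ∧ QuasiPeriodic T ∧ FiniteOrder T ∧ (∀ t ∈ T, IsPolygon t) ∧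
    ∀ t ∈ T, ∀ t' ∈ T, ∃ (r : ℝ) (f : ℂ → ℂ), IsSim r f ∧ t' = f '' t

/-- a generating pair `(p, F)` with `F = {f_1, ..., f_N}` and ratios `s ^ (a n)` -/
def IsGenPair (N : ℕ) (p : Set ℂ) (F : Fin N → ℂ ≃ ℂ) (s : ℝ) (a : Fin N → ℕ) : Prop :=
  2 ≤ N ∧ IsPolygon p ∧ 0 < s ∧ s < 1 ∧ (∀ n, 0 < a n) ∧ Finset.univ.gcd a = 1 ∧
    (∀ n, IsSim (s ^ a n) (F n)) ∧ p = ⋃ n, F n '' p ∧
    ∀ m n, m ≠ n → F m '' p ∩ F n '' p ⊆ frontier (F m '' p) ∩ frontier (F n '' p)

/-- `e(σ)` -/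
def e {N : ℕ} (a : Fin N → ℕ) (σ : List (Fin N)) : ℕ := (σ.map a).sum

/-- `e⁻(σ)` -/
def em {N : ℕ} (a : Fin N → ℕ) (σ : List (Fin N)) : ℕ := e a σ.dropLast

/-- `f_σ = f_{σ_1} ∘ ... ∘ f_{σ_k}` -/
def fpos {N : ℕ} (F : Fin N → ℂ ≃ ℂ) (σ : List (Fin N)) : Equiv.Perm ℂ := (σ.map fun n => (F n : Equiv.Perm ℂ)).prod

/-- `f_{-σ} = f_{σ_1}⁻¹ ∘ ... ∘ f_{σ_k}⁻¹` -/
def fneg {N : ℕ} (F : Fin N → ℂ ≃ ℂ) (σ : List (Fin N)) : Equiv.Perm ℂ :=
  (σ.map fun n => (F n : Equiv.Perm ℂ)⁻¹).prod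

/-- the prefix `θ | k` of the infinite string `θ` -/
def pre {N : ℕ} (θ : ℕ → Fin N) (k : ℕ) : List (Fin N) := (List.range k).map θ

/-- `T(θ, k)` -/
def Tk {N : ℕ} (p : Set ℂ) (F : Fin N → ℂ ≃ ℂ) (a : Fin N → ℕ) (θ : ℕ → Fin N) (k : ℕ) : Set (Set ℂ) :=
  {t | ∃ σ : List (Fin N), e a (pre θ k) ≤ e a σ ∧ em a σ < e a (pre θ k) ∧
    t = (fneg F (pre θ k) * fpos F σ) '' p}

/-- `T(p, F, θ)` -/
def TT {N : ℕ} (p : Set ℂ) (F : Fin N → ℂ ≃ ℂ) (a : Fin N → ℕ) (θ : ℕ → Fin N) : Set (Set ℂ) :=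
  ⋃ k ≥ 1, Tk p F a θ k

/-! ## similitudes -/

theorem sim_comp {r s : ℝ} {f g : ℂ → ℂ} (hf : IsSim r f) (hg : IsSim s g) : IsSim (r * s) (f ∘ g) :=
  ⟨mul_pos hf.1 hg.1, fun x y => by simp only [Function.comp]; rw [hf.2, hg.2]; ring⟩

theorem sim_id : IsSim 1 (id : ℂ → ℂ) := ⟨one_pos, fun x y => by simp⟩

theorem pinv (f : Equiv.Perm ℂ) (x : ℂ) : f (f⁻¹ x) = x := f.apply_symm_apply x

theorem sim_inv {r : ℝ} {f : Equiv.Perm ℂ} (hf : IsSim r f) : IsSim r⁻¹ (f⁻¹ : Equiv.Perm ℂ) := by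
  refine ⟨inv_pos.2 hf.1, fun x y => ?_⟩
  have := hf.2 (f⁻¹ x) (f⁻¹ y)
  rw [pinv, pinv] at this
  rw [this]
  have := hf.1.ne'
  field_simp

theorem sim_struct {r : ℝ} {f : ℂ → ℂ} (hf : IsSim r f) : ∃ u v : ℝ, u ^ 2 + v ^ 2 = r ^ 2 ∧
    ∃ ε : ℝ, (ε = 1 ∨ ε = -1) ∧ ∀ z, (f z).re = (f 0).re + u * z.re - ε * v * z.im ∧
      (f z).im = (f 0).im + v * z.re + ε * u * z.im := by
  obtain ⟨hr, hd⟩ := hf
  have hr' : (r : ℂ) ≠ 0 := by exact_mod_cast hr.ne'
  have hiso : Isometry (fun z => f z / (r : ℂ)) := by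
    apply Isometry.of_dist_eq
    intro x y
    rw [dist_eq_norm, ← sub_div, norm_div, ← dist_eq_norm, hd]
    simp only [Complex.norm_real, Real.norm_eq_abs, abs_of_pos hr]
    field_simp
  let A := hiso.affineIsometryOfStrictConvexSpace
  let L : ℂ ≃ₗᵢ[ℝ] ℂ := A.linearIsometry.toLinearIsometryEquiv rfl
  have hA : ∀ z, f z / (r : ℂ) = L z + f 0 / (r : ℂ) := by
    intro z
    have h1 := A.map_vadd 0 z
    simp only [vadd_eq_add, add_zero] at h1
    exact h1
  obtain ⟨w, hw⟩ := linear_isometry_complex L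
  have hwn : (w : ℂ).re ^ 2 + (w : ℂ).im ^ 2 = 1 := by
    have h2 : ‖(w : ℂ)‖ = 1 := Circle.norm_coe w
    have h3 := Complex.sq_norm (w : ℂ)
    rw [h2, Complex.normSq_apply] at h3
    nlinarith
  refine ⟨r * (w : ℂ).re, r * (w : ℂ).im, by nlinarith, ?_⟩
  have hf' : ∀ z, f z = r * L z + f 0 := by
    intro z
    have := hA z
    field_simp at this
    exact this
  rcases hw with hw | hw
  · refine ⟨1, Or.inl rfl, fun z => ?_⟩
    have : L z = (w : ℂ) * z := by rw [hw]; rfl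
    rw [hf' z, this]
    constructor
    · simp only [Complex.add_re, Complex.mul_re, Complex.ofReal_re, Complex.ofReal_im, Complex.mul_im]
      ring
    · simp only [Complex.add_im, Complex.mul_re, Complex.ofReal_re, Complex.ofReal_im, Complex.mul_im]
      ring
  · refine ⟨-1, Or.inr rfl, fun z => ?_⟩
    have : L z = (w : ℂ) * (starRingEnd ℂ) z := by rw [hw]; rfl
    rw [hf' z, this]
    constructor
    · simp only [Complex.add_re, Complex.mul_re, Complex.ofReal_re, Complex.ofReal_im, Complex.mul_im,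
        Complex.conj_re, Complex.conj_im]
      ring
    · simp only [Complex.add_im, Complex.mul_re, Complex.ofReal_re, Complex.ofReal_im, Complex.mul_im,
        Complex.conj_re, Complex.conj_im]
      ring

/-- `Ax false f`: `f` is affine and preserves the two axis directions; `Ax true f`: it swaps them -/
def Ax (b : Bool) (f : ℂ → ℂ) : Prop :=
  ∃ α β c d : ℝ, α ≠ 0 ∧ β ≠ 0 ∧ ∀ z, (f z).re = α * (if b then z.im else z.re) + c ∧
    (f z).im = β * (if b then z.re else z.im) + d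

theorem ax_comp {b b' : Bool} {f g : ℂ → ℂ} (hf : Ax b f) (hg : Ax b' g) : Ax (xor b b') (f ∘ g) := by
  obtain ⟨α, β, c, d, h1, h2, h3⟩ := hf
  obtain ⟨α', β', c', d', h1', h2', h3'⟩ := hg
  cases b <;> cases b'
  · refine ⟨α * α', β * β', α * c' + c, β * d' + d, mul_ne_zero h1 h1', mul_ne_zero h2 h2', fun z => ?_⟩
    have := h3 (g z); have h4 := h3' z
    simp only [Bool.false_eq_true, if_false] at this h4 
    simp only [Function.comp, Bool.xor_false, Bool.false_eq_true, if_false, this, h4]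
    constructor <;> ring
  · refine ⟨α * α', β * β', α * c' + c, β * d' + d, mul_ne_zero h1 h1', mul_ne_zero h2 h2', fun z => ?_⟩
    have := h3 (g z); have h4 := h3' z
    simp only [Bool.false_eq_true, if_false, if_true] at this h4 
    simp only [Function.comp, Bool.false_xor, if_true, this, h4]
    constructor <;> ring
  · refine ⟨α * β', β * α', α * d' + c, β * c' + d, mul_ne_zero h1 h2', mul_ne_zero h2 h1', fun z => ?_⟩
    have := h3 (g z); have h4 := h3' z
    simp only [Bool.false_eq_true, if_false, if_true] at this h4 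
    simp only [Function.comp, Bool.xor_false, if_true, this, h4]
    constructor <;> ring
  · refine ⟨α * β', β * α', α * d' + c, β * c' + d, mul_ne_zero h1 h2', mul_ne_zero h2 h1', fun z => ?_⟩
    have := h3 (g z); have h4 := h3' z
    simp only [if_true] at this h4 
    simp only [Function.comp, Bool.xor_self, Bool.false_eq_true, if_false, this, h4]
    constructor <;> ring

theorem ax_inv {b : Bool} {f : Equiv.Perm ℂ} (hf : Ax b f) : Ax b (f⁻¹ : Equiv.Perm ℂ) := by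
  obtain ⟨α, β, c, d, h1, h2, h3⟩ := hf
  cases b
  · refine ⟨α⁻¹, β⁻¹, -(α⁻¹ * c), -(β⁻¹ * d), inv_ne_zero h1, inv_ne_zero h2, fun z => ?_⟩
    have := h3 (f⁻¹ z)
    rw [pinv] at this
    simp only [Bool.false_eq_true, if_false] at this ⊢
    rw [this.1, this.2]
    constructor <;> field_simp <;> ring
  · refine ⟨β⁻¹, α⁻¹, -(β⁻¹ * d), -(α⁻¹ * c), inv_ne_zero h2, inv_ne_zero h1, fun z => ?_⟩
    have := h3 (f⁻¹ z)
    rw [pinv] at this
    simp only [if_true] at this ⊢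
    rw [this.1, this.2]
    constructor <;> field_simp <;> ring

/-! ## rectangles -/

/-- the closed rectangle `[a, a+w] × [b, b+h]` -/
def rect (a b w h : ℝ) : Set ℂ := {z | a ≤ z.re ∧ z.re ≤ a + w ∧ b ≤ z.im ∧ z.im ≤ b + h}

theorem mem_rect {a b w h : ℝ} {z : ℂ} :
    z ∈ rect a b w h ↔ a ≤ z.re ∧ z.re ≤ a + w ∧ b ≤ z.im ∧ z.im ≤ b + h := Iff.rfl

theorem rect_inj {a b w h a' b' w' h' : ℝ} (hw : 0 < w) (hh : 0 < h) (hw' : 0 < w') (hh' : 0 < h')
    (he : rect a b w h = rect a' b' w' h') : a = a' ∧ b = b' ∧ w = w' ∧ h = h' := by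
  have m1 : (⟨a, b⟩ : ℂ) ∈ rect a' b' w' h' := by
    rw [← he]; exact ⟨le_refl _, by simp; linarith, le_refl _, by simp; linarith⟩
  have m2 : (⟨a + w, b + h⟩ : ℂ) ∈ rect a' b' w' h' := by
    rw [← he]; exact ⟨by simp; linarith, le_refl _, by simp; linarith, le_refl _⟩
  have m3 : (⟨a', b'⟩ : ℂ) ∈ rect a b w h := by
    rw [he]; exact ⟨le_refl _, by simp; linarith, le_refl _, by simp; linarith⟩
  have m4 : (⟨a' + w', b' + h'⟩ : ℂ) ∈ rect a b w h := by
    rw [he]; exact ⟨by simp; linarith, le_refl _, by simp; linarith, le_refl _⟩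
  simp only [mem_rect] at m1 m2 m3 m4
  refine ⟨by linarith, by linarith, by linarith, by linarith⟩

/-- if the image of a rectangle under a similitude is a union of axis-parallel rectangles, the similitude
preserves the set of the two axis directions -/
theorem ax_of_image {r : ℝ} {f : ℂ → ℂ} (hf : IsSim r f) {a b w h : ℝ} (hw : 0 < w) (hh : 0 < h)
    {V : Set (Set ℂ)} (hV : f '' rect a b w h = ⋃₀ V)
    (hVr : ∀ t ∈ V, ∃ a' b' w' h' : ℝ, 0 < w' ∧ 0 < h' ∧ t = rect a' b' w' h') : ∃ q, Ax q f := by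
  obtain ⟨u, v, huv, ε, hε, hz⟩ := sim_struct hf
  have hr := hf.1
  have hε0 : ε ≠ 0 := by rcases hε with h | h <;> rw [h] <;> norm_num
  by_cases hu : u = 0
  · have hv : v ≠ 0 := by
      rintro rfl; rw [hu] at huv; nlinarith [pow_pos hr 2]
    refine ⟨true, -(ε * v), v, (f 0).re, (f 0).im, ?_, hv, fun z => ?_⟩
    · exact neg_ne_zero.2 (mul_ne_zero hε0 hv)
    · obtain ⟨h1, h2⟩ := hz z
      rw [h1, h2, hu]
      simp only [if_true]
      constructor <;> ring
  by_cases hv : v = 0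
  · refine ⟨false, u, ε * u, (f 0).re, (f 0).im, hu, mul_ne_zero hε0 hu, fun z => ?_⟩
    obtain ⟨h1, h2⟩ := hz z
    rw [h1, h2, hv]
    simp only [Bool.false_eq_true, if_false]
    constructor <;> ring
  exfalso
  -- minimum of the real part
  set β : ℝ := -(ε * v) with hβ
  have hβ0 : β ≠ 0 := neg_ne_zero.2 (mul_ne_zero hε0 hv)
  have hre : ∀ z, (f z).re = (f 0).re + u * z.re + β * z.im := fun z => by rw [(hz z).1, hβ]; ring
  -- the corner of the rectangle where the minimum is attained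
  obtain ⟨x0, hx0, hx0'⟩ : ∃ x0, (a ≤ x0 ∧ x0 ≤ a + w) ∧
      ∀ x, a ≤ x → x ≤ a + w → (u * x0 ≤ u * x ∧ (u * x = u * x0 → x = x0)) := by
    refine ⟨if 0 < u then a else a + w, ?_, ?_⟩
    · split_ifs
      · exact ⟨le_refl _, by linarith⟩
      · exact ⟨by linarith, le_refl _⟩
    · intro x h1 h2
      refine ⟨?_, fun h3 => mul_left_cancel₀ hu h3⟩
      split_ifs with h4
      · exact mul_le_mul_of_nonneg_left h1 h4.le
      · exact mul_le_mul_of_nonpos_left h2 (not_lt.1 h4)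
  obtain ⟨y0, hy0, hy0'⟩ : ∃ y0, (b ≤ y0 ∧ y0 ≤ b + h) ∧
      ∀ y, b ≤ y → y ≤ b + h → (β * y0 ≤ β * y ∧ (β * y = β * y0 → y = y0)) := by
    refine ⟨if 0 < β then b else b + h, ?_, ?_⟩
    · split_ifs
      · exact ⟨le_refl _, by linarith⟩
      · exact ⟨by linarith, le_refl _⟩
    · intro y h1 h2
      refine ⟨?_, fun h3 => mul_left_cancel₀ hβ0 h3⟩
      split_ifs with h4
      · exact mul_le_mul_of_nonneg_left h1 h4.le
      · exact mul_le_mul_of_nonpos_left h2 (not_lt.1 h4)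
  have hmin : ∀ z ∈ rect a b w h, (f ⟨x0, y0⟩).re ≤ (f z).re ∧ ((f z).re = (f ⟨x0, y0⟩).re → z = ⟨x0, y0⟩) := by
    intro z hz'
    obtain ⟨h1, h2, h3, h4⟩ := hz'
    have e1 := hx0' z.re h1 h2
    have e2 := hy0' z.im h3 h4
    rw [hre z, hre ⟨x0, y0⟩]
    simp only
    refine ⟨by linarith [e1.1, e2.1], fun h5 => ?_⟩
    have e3 : u * z.re = u * x0 := by linarith [e1.1, e2.1]
    have e4 : β * z.im = β * y0 := by linarith [e1.1, e2.1]
    exact Complex.ext (e1.2 e3) (e2.2 e4)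
  have hmem : f ⟨x0, y0⟩ ∈ ⋃₀ V := by
    rw [← hV]
    exact ⟨_, ⟨hx0.1, hx0.2, hy0.1, hy0.2⟩, rfl⟩
  obtain ⟨t, htV, ht⟩ := hmem
  obtain ⟨a', b', w', h', hw', hh', rfl⟩ := hVr t htV
  have hsub : rect a' b' w' h' ⊆ f '' rect a b w h := by
    rw [hV]; exact Set.subset_sUnion_of_mem htV
  have p1 : (⟨a', b'⟩ : ℂ) ∈ rect a' b' w' h' := ⟨le_refl _, by simp; linarith, le_refl _, by simp; linarith⟩
  have p2 : (⟨a', b' + h'⟩ : ℂ) ∈ rect a' b' w' h' := ⟨le_refl _, by simp; linarith, by simp; linarith, le_refl _⟩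
  obtain ⟨z1, hz1, e1⟩ := hsub p1
  obtain ⟨z2, hz2, e2⟩ := hsub p2
  have m1 := hmin z1 hz1
  have m2 := hmin z2 hz2
  rw [e1] at m1
  rw [e2] at m2
  simp only at m1 m2
  have hle : a' ≤ (f ⟨x0, y0⟩).re := ht.1
  have c1 := m1.2 (le_antisymm hle m1.1)
  have c2 := m2.2 (le_antisymm hle m2.1)
  rw [c1] at e1
  rw [c2, e1] at e2
  have := congrArg Complex.im e2
  simp only at this
  linarith

theorem unit_of_sim {b : Bool} {g : ℂ → ℂ} (hs : IsSim 1 g) (ha : Ax b g) :
    ∃ α β c d : ℝ, (α = 1 ∨ α = -1) ∧ (β = 1 ∨ β = -1) ∧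
      ∀ z, (g z).re = α * (if b then z.im else z.re) + c ∧ (g z).im = β * (if b then z.re else z.im) + d := by
  obtain ⟨α, β, c, d, h1, h2, h3⟩ := ha
  have key : ∀ t : ℝ, |t| = 1 → t = 1 ∨ t = -1 := fun t ht => (abs_eq zero_le_one).1 ht
  have d1 := hs.2 0 1
  have d2 := hs.2 0 Complex.I
  rw [Complex.dist_eq_re_im, Complex.dist_eq_re_im, (h3 0).1, (h3 0).2, (h3 1).1, (h3 1).2] at d1
  rw [Complex.dist_eq_re_im, Complex.dist_eq_re_im, (h3 0).1, (h3 0).2, (h3 Complex.I).1, (h3 Complex.I).2] at d2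
  refine ⟨α, β, c, d, ?_, ?_, h3⟩
  · apply key
    cases b
    · simp only [Bool.false_eq_true, if_false] at d1
      rw [← Real.sqrt_sq_eq_abs]
      convert d1 using 2
      · simp
      · simp
    · simp only [if_true] at d2
      rw [← Real.sqrt_sq_eq_abs]
      convert d2 using 2
      · simp
      · simp
  · apply key
    cases b
    · simp only [Bool.false_eq_true, if_false] at d2
      rw [← Real.sqrt_sq_eq_abs]
      convert d2 using 2
      · simp
      · simp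
    · simp only [if_true] at d1
      rw [← Real.sqrt_sq_eq_abs]
      convert d1 using 2
      · simp
      · simp

/-- an axis-preserving isometry maps a rectangle to a rectangle with the same extents -/
theorem image_keep {g : Equiv.Perm ℂ} (hs : IsSim 1 g) (ha : Ax false g) (a b w h : ℝ) :
    ∃ a' b', g '' rect a b w h = rect a' b' w h := by
  obtain ⟨α, β, c, d, h1, h2, h3⟩ := unit_of_sim hs ha
  simp only [Bool.false_eq_true, if_false] at h3
  refine ⟨if α = 1 then a + c else c - a - w, if β = 1 then b + d else d - b - h, ?_⟩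
  ext z
  rw [Set.mem_image]
  constructor
  · rintro ⟨x, hx, rfl⟩
    rw [mem_rect] at hx ⊢
    rw [(h3 x).1, (h3 x).2]
    rcases h1 with rfl | rfl <;> rcases h2 with rfl | rfl <;>
      simp only [if_true, show ((-1 : ℝ) = 1) = False by norm_num, if_false] <;>
      refine ⟨by linarith, by linarith, by linarith, by linarith⟩
  · intro hz
    refine ⟨g⁻¹ z, ?_, pinv g z⟩
    have := h3 (g⁻¹ z)
    rw [pinv] at this
    rw [mem_rect] at hz ⊢
    obtain ⟨e1, e2⟩ := this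
    rcases h1 with rfl | rfl <;> rcases h2 with rfl | rfl <;>
      simp only [if_true, show ((-1 : ℝ) = 1) = False by norm_num, if_false] at hz <;>
      refine ⟨by linarith [hz.1, hz.2.1, hz.2.2.1, hz.2.2.2], by linarith [hz.1, hz.2.1, hz.2.2.1, hz.2.2.2],
        by linarith [hz.1, hz.2.1, hz.2.2.1, hz.2.2.2], by linarith [hz.1, hz.2.1, hz.2.2.1, hz.2.2.2]⟩

/-- an axis-swapping isometry maps an end-to-end horizontal pair to an end-to-end vertical pair -/
theorem image_swap {g : Equiv.Perm ℂ} (hs : IsSim 1 g) (ha : Ax true g) (a b : ℝ) :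
    ∃ a' b' ε : ℝ, (ε = 1 ∨ ε = -1) ∧ g '' rect a b 2 1 = rect a' b' 1 2 ∧
      g '' rect (a + 2) b 2 1 = rect a' (b' + 2 * ε) 1 2 := by
  obtain ⟨α, β, c, d, h1, h2, h3⟩ := unit_of_sim hs ha
  simp only [if_true] at h3
  refine ⟨if α = 1 then b + c else c - b - 1, if β = 1 then a + d else d - a - 2, β, h2, ?_, ?_⟩
  all_goals
    ext z
    rw [Set.mem_image]
    constructor
    · rintro ⟨x, hx, rfl⟩
      rw [mem_rect] at hx ⊢
      rw [(h3 x).1, (h3 x).2]
      rcases h1 with rfl | rfl <;> rcases h2 with rfl | rfl <;>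
        simp only [if_true, show ((-1 : ℝ) = 1) = False by norm_num, if_false] <;>
        refine ⟨by linarith, by linarith, by linarith, by linarith⟩
    · intro hz
      refine ⟨g⁻¹ z, ?_, pinv g z⟩
      have := h3 (g⁻¹ z)
      rw [pinv] at this
      rw [mem_rect] at hz ⊢
      obtain ⟨e1, e2⟩ := this
      rcases h1 with rfl | rfl <;> rcases h2 with rfl | rfl <;>
        simp only [if_true, show ((-1 : ℝ) = 1) = False by norm_num, if_false] at hz <;>
        refine ⟨by linarith [hz.1, hz.2.1, hz.2.2.1, hz.2.2.2], by linarith [hz.1, hz.2.1, hz.2.2.1, hz.2.2.2],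
          by linarith [hz.1, hz.2.1, hz.2.2.1, hz.2.2.2], by linarith [hz.1, hz.2.1, hz.2.2.1, hz.2.2.2]⟩

/-- the set of distances -/
theorem greatest_rect {a b w h : ℝ} (hw : 0 < w) (hh : 0 < h) :
    IsGreatest {δ | ∃ x ∈ rect a b w h, ∃ y ∈ rect a b w h, δ = dist x y} (Real.sqrt (w ^ 2 + h ^ 2)) := by
  constructor
  · refine ⟨⟨a, b⟩, ⟨le_refl _, by simp; linarith, le_refl _, by simp; linarith⟩, ⟨a + w, b + h⟩,
      ⟨by simp; linarith, le_refl _, by simp; linarith, le_refl _⟩, ?_⟩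
    rw [Complex.dist_eq_re_im]
    congr 1
    ring
  · rintro δ ⟨x, hx, y, hy, rfl⟩
    rw [Complex.dist_eq_re_im]
    apply Real.sqrt_le_sqrt
    rw [mem_rect] at hx hy
    apply add_le_add
    · apply sq_le_sq'
      · linarith
      · linarith
    · apply sq_le_sq'
      · linarith
      · linarith

theorem ratio_one {a b w h a' b' w' h' r : ℝ} {g : ℂ → ℂ} (hw : 0 < w) (hh : 0 < h) (hw' : 0 < w') (hh' : 0 < h')
    (he : w ^ 2 + h ^ 2 = w' ^ 2 + h' ^ 2) (hg : IsSim r g) (hi : g '' rect a b w h = rect a' b' w' h') : r = 1 := by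
  have g1 := greatest_rect (a := a) (b := b) hw hh
  have g2 := greatest_rect (a := a') (b := b') hw' hh'
  rw [← he] at g2
  have hpos : 0 < Real.sqrt (w ^ 2 + h ^ 2) := Real.sqrt_pos.2 (by positivity)
  obtain ⟨⟨x, hx, y, hy, e1⟩, u1⟩ := g1
  obtain ⟨⟨x', hx', y', hy', e2⟩, u2⟩ := g2
  have l1 : r * Real.sqrt (w ^ 2 + h ^ 2) ≤ Real.sqrt (w ^ 2 + h ^ 2) := by
    apply u2
    refine ⟨g x, by rw [← hi]; exact ⟨x, hx, rfl⟩, g y, by rw [← hi]; exact ⟨y, hy, rfl⟩, ?_⟩
    rw [hg.2, ← e1]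
  have l2 : Real.sqrt (w ^ 2 + h ^ 2) ≤ r * Real.sqrt (w ^ 2 + h ^ 2) := by
    rw [← hi] at hx' hy'
    obtain ⟨p, hp, rfl⟩ := hx'
    obtain ⟨q, hq, rfl⟩ := hy'
    rw [hg.2] at e2
    have : dist p q ≤ Real.sqrt (w ^ 2 + h ^ 2) := u1 ⟨p, hp, q, hq, rfl⟩
    calc Real.sqrt (w ^ 2 + h ^ 2) = r * dist p q := e2
      _ ≤ _ := mul_le_mul_of_nonneg_left this hg.1.le
  have l3 : r * Real.sqrt (w ^ 2 + h ^ 2) = 1 * Real.sqrt (w ^ 2 + h ^ 2) := by linarith
  exact mul_right_cancel₀ hpos.ne' l3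

/-! ## the tiling -/

/-- the domino tiling: the `2 × 2` block number `(i, j)` is cut into vertical dominoes if `i` and `j` are both even
and into horizontal dominoes otherwise -/
def Dom : Set (Set ℂ) :=
  {t | ∃ i j k : ℤ, (k = 0 ∨ k = 1) ∧ ((Even i ∧ Even j ∧ t = rect (2 * i + k) (2 * j) 1 2) ∨
    (¬ (Even i ∧ Even j) ∧ t = rect (2 * i) (2 * j + k) 2 1))}

theorem dom_cases {t : Set ℂ} (ht : t ∈ Dom) : ∃ a b : ℝ, t = rect a b 1 2 ∨ t = rect a b 2 1 := by
  obtain ⟨i, j, k, hk, h | h⟩ := ht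
  · exact ⟨_, _, Or.inl h.2.2⟩
  · exact ⟨_, _, Or.inr h.2⟩

/-- no two vertical dominoes are end to end -/
theorem no_vertical {a b ε : ℝ} (hε : ε = 1 ∨ ε = -1) (h1 : rect a b 1 2 ∈ Dom)
    (h2 : rect a (b + 2 * ε) 1 2 ∈ Dom) : False := by
  obtain ⟨i, j, k, hk, h | h⟩ := h1
  · obtain ⟨i', j', k', hk', h' | h'⟩ := h2
    · obtain ⟨e1, e2, -, -⟩ := rect_inj (by norm_num) (by norm_num) (by norm_num) (by norm_num) h.2.2
      obtain ⟨e3, e4, -, -⟩ := rect_inj (by norm_num) (by norm_num) (by norm_num) (by norm_num) h'.2.2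
      obtain ⟨u, hu⟩ := h.2.1
      obtain ⟨v, hv⟩ := h'.2.1
      rcases hε with rfl | rfl
      · have : (2 * (j' : ℝ)) = 2 * j + 2 := by linarith
        have : 2 * j' = 2 * j + 2 := by exact_mod_cast this
        omega
      · have : (2 * (j' : ℝ)) = 2 * j - 2 := by linarith
        have : 2 * j' = 2 * j - 2 := by exact_mod_cast this
        omega
    · obtain ⟨-, -, e, -⟩ := rect_inj (by norm_num) (by norm_num) (by norm_num) (by norm_num) h'.2
      norm_num at e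
  · obtain ⟨-, -, e, -⟩ := rect_inj (by norm_num) (by norm_num) (by norm_num) (by norm_num) h.2
    norm_num at e

theorem hor_mem (k : ℤ) : rect (2 * k) 2 2 1 ∈ Dom := by
  refine ⟨k, 1, 0, Or.inl rfl, Or.inr ⟨fun h => by simp at h, ?_⟩⟩
  norm_num

theorem ver_mem : rect 0 0 1 2 ∈ Dom := ⟨0, 0, 0, Or.inl rfl, Or.inl ⟨by simp, by simp, by norm_num⟩⟩

/-! ## the tiling is not obtained by the method -/

theorem e_append {N : ℕ} (a : Fin N → ℕ) (σ τ : List (Fin N)) : e a (σ ++ τ) = e a σ + e a τ := by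
  simp [e]

theorem sim_fpos {N : ℕ} {F : Fin N → ℂ ≃ ℂ} {s : ℝ} {a : Fin N → ℕ}
    (hF : ∀ n, IsSim (s ^ a n) (F n)) (σ : List (Fin N)) : IsSim (s ^ (e a σ)) (fpos F σ) := by
  induction σ with
  | nil => simpa [e, fpos] using sim_id
  | cons n σ ih =>
    have := sim_comp (hF n) ih
    rw [← pow_add] at this
    simpa [e, fpos] using this

theorem sim_fneg {N : ℕ} {F : Fin N → ℂ ≃ ℂ} {s : ℝ} {a : Fin N → ℕ}
    (hF : ∀ n, IsSim (s ^ a n) (F n)) (σ : List (Fin N)) : IsSim ((s ^ (e a σ))⁻¹) (fneg F σ) := by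
  induction σ with
  | nil => simpa [e, fneg] using sim_id
  | cons n σ ih =>
    have := sim_comp (sim_inv (f := (F n : Equiv.Perm ℂ)) (hF n)) ih
    rw [← mul_inv, ← pow_add] at this
    simpa [e, fneg] using this

theorem ax_id : Ax false (id : ℂ → ℂ) := ⟨1, 1, 0, 0, one_ne_zero, one_ne_zero, fun z => by simp⟩

theorem ax_fpos {N : ℕ} {F : Fin N → ℂ ≃ ℂ} {c : Bool} (hF : ∀ n, Ax c (F n)) (σ : List (Fin N)) :
    Ax (if Even σ.length then false else c) (fpos F σ) := by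
  induction σ with
  | nil => simpa [fpos] using ax_id
  | cons n σ ih =>
    have := ax_comp (hF n) ih
    have e1 : (xor c (if Even σ.length then false else c)) = (if Even (n :: σ).length then false else c) := by
      by_cases h : Even σ.length
      · have h' : ¬ Even (n :: σ).length := by rw [List.length_cons, Nat.even_add_one]; simpa using h
        rw [if_pos h, if_neg h']; simp
      · have h' : Even (n :: σ).length := by rw [List.length_cons, Nat.even_add_one]; exact h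
        rw [if_neg h, if_pos h']; simp
    rw [e1] at this
    simpa [fpos] using this

theorem ax_fneg {N : ℕ} {F : Fin N → ℂ ≃ ℂ} {c : Bool} (hF : ∀ n, Ax c (F n)) (σ : List (Fin N)) :
    Ax (if Even σ.length then false else c) (fneg F σ) := by
  induction σ with
  | nil => simpa [fneg] using ax_id
  | cons n σ ih =>
    have := ax_comp (ax_inv (f := (F n : Equiv.Perm ℂ)) (hF n)) ih
    have e1 : (xor c (if Even σ.length then false else c)) = (if Even (n :: σ).length then false else c) := by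
      by_cases h : Even σ.length
      · have h' : ¬ Even (n :: σ).length := by rw [List.length_cons, Nat.even_add_one]; simpa using h
        rw [if_pos h, if_neg h']; simp
      · have h' : Even (n :: σ).length := by rw [List.length_cons, Nat.even_add_one]; exact h
        rw [if_neg h, if_pos h']; simp
    rw [e1] at this
    simpa [fneg] using this

theorem ax_unique {g : ℂ → ℂ} (h1 : Ax true g) (h2 : Ax false g) : False := by
  obtain ⟨α, β, c, d, a1, a2, a3⟩ := h1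
  obtain ⟨α', β', c', d', b1, b2, b3⟩ := h2
  have e1 := (a3 0).1
  have e2 := (b3 0).1
  have e3 := (a3 1).1
  have e4 := (b3 1).1
  simp at e1 e2 e3 e4
  apply b1
  linarith

theorem main_neg (N : ℕ) (p : Set ℂ) (F : Fin N → ℂ ≃ ℂ) (s : ℝ) (a : Fin N → ℕ) (θ : ℕ → Fin N)
    (hG : IsGenPair N p F s a) (hT : Dom = TT p F a θ) : False := by
  obtain ⟨hN, -, hs0, hs1, ha, hgcd, hF, hp, -⟩ := hG
  -- `p` is a tile
  have hpT : p ∈ Dom := by
    rw [hT]
    refine Set.mem_iUnion₂.2 ⟨1, le_refl _, [θ 0], ?_, ?_, ?_⟩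
    · simp [e, pre]
    · simp [e, em, pre, ha]
    · simp [fneg, fpos, pre]
  obtain ⟨pa, pb, hpd⟩ := dom_cases hpT
  obtain ⟨pw, ph, hpw, hph, hpp, hpr⟩ : ∃ pw ph : ℝ, 0 < pw ∧ 0 < ph ∧ pw ^ 2 + ph ^ 2 = 5 ∧ p = rect pa pb pw ph := by
    rcases hpd with h | h
    · exact ⟨1, 2, by norm_num, by norm_num, by norm_num, h⟩
    · exact ⟨2, 1, by norm_num, by norm_num, by norm_num, h⟩
  -- no overshoot
  have hover : ∀ k ≥ 1, ∀ σ : List (Fin N), e a (pre θ k) ≤ e a σ → em a σ < e a (pre θ k) →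
      e a σ = e a (pre θ k) := by
    intro k hk σ h1 h2
    have hmem : (fneg F (pre θ k) * fpos F σ) '' p ∈ Dom := by
      rw [hT]
      exact Set.mem_iUnion₂.2 ⟨k, hk, σ, h1, h2, rfl⟩
    have hsim := sim_comp (sim_fneg hF (pre θ k)) (sim_fpos hF σ)
    have h1' : (s ^ e a (pre θ k))⁻¹ * s ^ e a σ = 1 := by
      obtain ⟨x, y, h | h⟩ := dom_cases hmem
      · rw [hpr] at h
        exact ratio_one hpw hph one_pos two_pos (by rw [hpp]; norm_num) hsim h
      · rw [hpr] at h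
        exact ratio_one hpw hph two_pos one_pos (by rw [hpp]; norm_num) hsim h
    have h2' : s ^ e a σ = s ^ e a (pre θ k) := by
      have : s ^ e a (pre θ k) ≠ 0 := (pow_pos hs0 _).ne'
      field_simp at h1'
      linarith
    exact pow_right_injective₀ hs0 hs1.ne h2'
  -- all exponents are equal, hence equal to 1
  have hale : ∀ n x, a n ≤ a x → a x = a n := by
    intro n
    set E := e a (pre θ 1) with hE
    have hEpos : 0 < E := by simp [hE, e, pre, ha]
    -- q minimal with q * a n ≥ E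
    have hex : ∃ q : ℕ, E ≤ q * a n := ⟨E, Nat.le_mul_of_pos_right E (ha n)⟩
    classical
    set q := Nat.find hex with hq
    have hq1 : E ≤ q * a n := Nat.find_spec hex
    have hq0 : 0 < q := by
      rcases Nat.eq_zero_or_pos q with h | h
      · rw [h] at hq1; omega
      · exact h
    have hq2 : (q - 1) * a n < E := by
      have := Nat.find_min hex (m := q - 1) (by omega)
      omega
    have hrep : ∀ (u : ℕ) (x : Fin N), e a (List.replicate u x) = u * a x := by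
      intro u x; simp [e]
    obtain ⟨q', hq'⟩ : ∃ q', q = q' + 1 := ⟨q - 1, by omega⟩
    have h1 := hover 1 (le_refl _) (List.replicate q n) (by rw [hrep]; exact hq1) (by
      rw [em, hq', List.replicate_succ', List.dropLast_concat, hrep]
      rw [hq'] at hq2; simpa using hq2)
    rw [hrep, ← hE] at h1
    intro x hx
    have h2 := hover 1 (le_refl _) (List.replicate q' n ++ [x]) (by
      rw [e_append, hrep, ← hE, ← h1, hq']
      simp only [e, List.map_cons, List.map_nil, List.sum_cons, List.sum_nil, add_zero]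
      rw [add_mul, one_mul]; omega) (by
      rw [em, List.dropLast_concat, hrep]
      rw [hq'] at hq2; simpa using hq2)
    rw [e_append, hrep, ← hE, ← h1, hq'] at h2
    simp only [e, List.map_cons, List.map_nil, List.sum_cons, List.sum_nil, add_zero] at h2
    rw [add_mul, one_mul] at h2
    omega
  have haeq : ∀ m n, a m = a n := by
    intro m n
    rcases le_total (a m) (a n) with h | h
    · exact (hale m n h).symm
    · exact hale n m h
  have ha1 : ∀ n, a n = 1 := by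
    intro n
    have : a n ∣ Finset.univ.gcd a := Finset.dvd_gcd fun m _ => by rw [haeq n m]
    rw [hgcd] at this
    exact Nat.dvd_one.1 this
  have hel : ∀ σ : List (Fin N), e a σ = σ.length := by
    intro σ
    have : σ.map a = σ.map fun _ => 1 := List.map_congr_left fun x _ => ha1 x
    rw [e, this]; simp
  have hprelen : ∀ k, (pre θ k).length = k := fun k => by simp [pre]
  -- the tiles of `T(θ, k)`
  have hmemT : ∀ k ≥ 1, ∀ σ : List (Fin N), σ.length = k → (fneg F (pre θ k) * fpos F σ) '' p ∈ Dom := by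
    intro k hk σ hσ
    rw [hT]
    refine Set.mem_iUnion₂.2 ⟨k, hk, σ, ?_, ?_, rfl⟩
    · rw [hel, hel, hprelen, hσ]
    · rw [em, hel, hel, hprelen, List.length_dropLast, hσ]; omega
  have hmemT' : ∀ t ∈ Dom, ∃ k ≥ 1, ∃ σ : List (Fin N), σ.length = k ∧ t = (fneg F (pre θ k) * fpos F σ) '' p := by
    intro t ht
    rw [hT] at ht
    obtain ⟨k, hk, σ, h1, h2, h3⟩ := Set.mem_iUnion₂.1 ht
    refine ⟨k, hk, σ, ?_, h3⟩
    have := hover k hk σ h1 h2
    rwa [hel, hel, hprelen] at this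
  -- monotonicity
  have hpre : ∀ k, pre θ (k + 1) = pre θ k ++ [θ k] := by
    intro k; simp [pre, List.range_succ]
  have hmono1 : ∀ k (σ : List (Fin N)), fneg F (pre θ (k + 1)) * fpos F (θ k :: σ) = fneg F (pre θ k) * fpos F σ := by
    intro k σ
    rw [hpre]
    simp only [fneg, fpos, List.map_append, List.map_cons, List.map_nil, List.prod_append, List.prod_cons,
      List.prod_nil, mul_one]
    group
  have hmono : ∀ (j k : ℕ) (σ : List (Fin N)), σ.length = k → ∃ τ : List (Fin N), τ.length = k + j ∧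
      fneg F (pre θ (k + j)) * fpos F τ = fneg F (pre θ k) * fpos F σ := by
    intro j
    induction j with
    | zero => intro k σ h; exact ⟨σ, h, rfl⟩
    | succ j ih =>
      intro k σ h
      obtain ⟨τ, h1, h2⟩ := ih k σ h
      exact ⟨θ (k + j) :: τ, by simp [h1]; omega, by rw [← h2, ← add_assoc, hmono1]⟩
  -- the similitudes preserve the axis directions
  have hrect : ∀ t ∈ Dom, ∃ a' b' w' h' : ℝ, 0 < w' ∧ 0 < h' ∧ t = rect a' b' w' h' := by
    intro t ht
    obtain ⟨x, y, h | h⟩ := dom_cases ht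
    · exact ⟨x, y, 1, 2, one_pos, two_pos, h⟩
    · exact ⟨x, y, 2, 1, two_pos, one_pos, h⟩
  have hax0 : ∃ q, Ax q ((F (θ 0) : Equiv.Perm ℂ)⁻¹ : Equiv.Perm ℂ) := by
    refine ax_of_image (sim_inv (f := (F (θ 0) : Equiv.Perm ℂ)) (hF (θ 0))) hpw hph (a := pa) (b := pb)
      (V := {t | ∃ n, t = (fneg F (pre θ 1) * fpos F [n]) '' p}) ?_ ?_
    · rw [← hpr]
      conv_lhs => rw [hp]
      rw [Set.image_iUnion]
      ext z
      simp only [Set.mem_iUnion, Set.mem_sUnion, Set.mem_ofPred_eq]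
      constructor
      · rintro ⟨n, hz⟩
        refine ⟨_, ⟨n, rfl⟩, ?_⟩
        rw [← Set.image_comp] at hz
        simpa [fneg, fpos, pre] using hz
      · rintro ⟨t, ⟨n, rfl⟩, hz⟩
        refine ⟨n, ?_⟩
        rw [← Set.image_comp]
        simpa [fneg, fpos, pre] using hz
    · rintro t ⟨n, rfl⟩
      exact hrect _ (hmemT 1 (le_refl _) [n] rfl)
  have hax : ∀ n, ∃ q, Ax q (F n) := by
    intro n
    have h1 := hmemT 1 (le_refl _) [n] rfl
    have h2 : ∃ q, Ax q (fneg F (pre θ 1) * fpos F [n] : Equiv.Perm ℂ) := by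
      have hs1 := sim_comp (sim_fneg hF (pre θ 1)) (sim_fpos hF [n])
      have hs2 : IsSim ((s ^ e a (pre θ 1))⁻¹ * s ^ e a [n]) (fneg F (pre θ 1) * fpos F [n] : Equiv.Perm ℂ) := hs1
      refine ax_of_image hs2 hpw hph (a := pa) (b := pb)
        (V := {(fneg F (pre θ 1) * fpos F [n]) '' p}) ?_ ?_
      · rw [← hpr, Set.sUnion_singleton]
      · rintro t rfl
        exact hrect _ h1
    obtain ⟨q0, hq0⟩ := hax0
    obtain ⟨q1, hq1⟩ := h2
    have h3 := ax_comp (ax_inv hq0) hq1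
    refine ⟨xor q0 q1, ?_⟩
    convert h3 using 1
    funext z
    simp [fneg, fpos, pre]
  have haxneg : ∀ σ : List (Fin N), ∃ q, Ax q (fneg F σ) := by
    intro σ
    induction σ with
    | nil => exact ⟨false, by simpa [fneg] using ax_id⟩
    | cons n σ ih =>
      obtain ⟨q, hq⟩ := ih
      obtain ⟨q', hq'⟩ := hax n
      refine ⟨xor q' q, ?_⟩
      have := ax_comp (ax_inv (f := (F n : Equiv.Perm ℂ)) hq') hq
      simpa [fneg] using this
  -- an end-to-end horizontal pair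
  obtain ⟨k1, hk1, σ1, hσ1, ht1⟩ := hmemT' _ (hor_mem 0)
  obtain ⟨k2, hk2, σ2, hσ2, ht2⟩ := hmemT' _ (hor_mem 1)
  obtain ⟨τ1, hτ1, e1⟩ := hmono k2 k1 σ1 hσ1
  obtain ⟨τ2, hτ2, e2⟩ := hmono k1 k2 σ2 hσ2
  rw [add_comm k2 k1] at hτ2 e2
  set k := k1 + k2 with hk
  rw [← e1] at ht1
  rw [← e2] at ht2
  norm_num at ht1 ht2
  obtain ⟨B, hB⟩ := haxneg (pre θ k)
  obtain ⟨B', hB'⟩ := haxneg (pre θ (k + 1))
  have hall : ∀ n, Ax (xor B' B) (F n) := by
    intro n
    obtain ⟨q, hq⟩ := hax n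
    set g : Equiv.Perm ℂ := fneg F (pre θ (k + 1)) * ((F n : Equiv.Perm ℂ) * (fneg F (pre θ k))⁻¹) with hg
    have hgax : Ax (xor B' (xor q B)) g := by
      have h := ax_comp hB' (ax_comp hq (ax_inv hB))
      exact h
    have hgsim : IsSim 1 g := by
      have := sim_comp (sim_fneg hF (pre θ (k + 1))) (sim_comp (hF n) (sim_inv (sim_fneg hF (pre θ k))))
      have e3 : (s ^ e a (pre θ (k + 1)))⁻¹ * (s ^ a n * ((s ^ e a (pre θ k))⁻¹)⁻¹) = 1 := by
        rw [hel, hel, hprelen, hprelen, ha1, inv_inv, ← pow_add]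
        rw [add_comm 1 k]
        exact inv_mul_cancel₀ (pow_pos hs0 _).ne'
      rw [e3] at this
      exact this
    have himg : ∀ τ : List (Fin N), τ.length = k → g '' ((fneg F (pre θ k) * fpos F τ) '' p) ∈ Dom := by
      intro τ hτ
      have h1 := hmemT (k + 1) (by omega) (n :: τ) (by simp [hτ])
      convert h1 using 1
      rw [← Set.image_comp, ← Equiv.Perm.coe_mul]
      congr 2
      rw [hg]
      simp only [fpos, List.map_cons, List.prod_cons]
      group
    have m1 := himg τ1 hτ1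
    have m2 := himg τ2 hτ2
    have hx : xor B' (xor q B) = false := by
      by_contra hne
      have htrue : xor B' (xor q B) = true := by simpa using hne
      rw [htrue] at hgax
      obtain ⟨a', b', ε, hε, i1, i2⟩ := image_swap hgsim hgax 0 2
      have m1' : g '' rect 0 2 2 1 ∈ Dom := by rw [ht1]; exact m1
      have m2' : g '' rect (0 + 2) 2 2 1 ∈ Dom := by rw [zero_add, ht2]; exact m2
      rw [i1] at m1'
      rw [i2] at m2'
      exact no_vertical hε m1' m2'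
    have : q = xor B' B := by
      revert hx
      cases B <;> cases B' <;> cases q <;> decide
    rwa [this] at hq
  -- hence all tiles have the same orientation
  have hext : ∀ t ∈ Dom, ∃ a' b', t = rect a' b' pw ph := by
    intro t ht
    obtain ⟨k, hk, σ, hσ, rfl⟩ := hmemT' t ht
    have h1 := ax_comp (ax_fneg hall (pre θ k)) (ax_fpos hall σ)
    rw [hprelen, hσ, Bool.xor_self] at h1
    have h2 := sim_comp (sim_fneg hF (pre θ k)) (sim_fpos hF σ)
    have e3 : (s ^ e a (pre θ k))⁻¹ * s ^ e a σ = 1 := by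
      rw [hel, hel, hprelen, hσ]
      exact inv_mul_cancel₀ (pow_pos hs0 _).ne'
    rw [e3] at h2
    rw [hpr]
    exact image_keep (g := fneg F (pre θ k) * fpos F σ) h2 h1 _ _ _ _
  obtain ⟨x1, y1, h1⟩ := hext _ (hor_mem 0)
  obtain ⟨x2, y2, h2⟩ := hext _ ver_mem
  obtain ⟨-, -, i1, -⟩ := rect_inj (by norm_num) (by norm_num) hpw hph h1
  obtain ⟨-, -, i2, -⟩ := rect_inj (by norm_num) (by norm_num) hpw hph h2
  linarith

/-! ## the tiling is a self-similar polygonal tiling -/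

theorem rect_eq (a b w h : ℝ) : rect a b w h = Set.Icc a (a + w) ×ℂ Set.Icc b (b + h) := by
  ext z; simp [rect, Complex.mem_reProdIm, and_assoc]

theorem rect_compact (a b w h : ℝ) : IsCompact (rect a b w h) := by
  rw [rect_eq]; exact isCompact_Icc.reProdIm isCompact_Icc

theorem interior_rect (a b w h : ℝ) :
    interior (rect a b w h) = {z | a < z.re ∧ z.re < a + w ∧ b < z.im ∧ z.im < b + h} := by
  rw [rect_eq, Complex.interior_reProdIm, interior_Icc, interior_Icc]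
  ext z; simp [Complex.mem_reProdIm, and_assoc]

theorem closure_interior_rect {a b w h : ℝ} (hw : 0 < w) (hh : 0 < h) :
    closure (interior (rect a b w h)) = rect a b w h := by
  rw [rect_eq, Complex.interior_reProdIm, interior_Icc, interior_Icc, Complex.closure_reProdIm,
    closure_Ioo (by linarith), closure_Ioo (by linarith)]

theorem frontier_rect (a b w h : ℝ) : frontier (rect a b w h) = {z | z ∈ rect a b w h ∧
    (z.re = a ∨ z.re = a + w ∨ z.im = b ∨ z.im = b + h)} := by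
  rw [(rect_compact a b w h).isClosed.frontier_eq, interior_rect]
  ext z
  simp only [Set.mem_sdiff, Set.mem_ofPred_eq, mem_rect]
  constructor
  · rintro ⟨⟨h1, h2, h3, h4⟩, h5⟩
    refine ⟨⟨h1, h2, h3, h4⟩, ?_⟩
    by_contra hcon
    push Not at hcon
    exact h5 ⟨lt_of_le_of_ne h1 (Ne.symm hcon.1), lt_of_le_of_ne h2 hcon.2.1,
      lt_of_le_of_ne h3 (Ne.symm hcon.2.2.1), lt_of_le_of_ne h4 hcon.2.2.2⟩
  · rintro ⟨⟨h1, h2, h3, h4⟩, h5⟩
    refine ⟨⟨h1, h2, h3, h4⟩, fun h6 => ?_⟩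
    rcases h5 with h | h | h | h <;> linarith [h6.1, h6.2.1, h6.2.2.1, h6.2.2.2]

theorem segH {x x' y : ℝ} (hx : x ≤ x') :
    segment ℝ (⟨x, y⟩ : ℂ) ⟨x', y⟩ = {z | z.im = y ∧ x ≤ z.re ∧ z.re ≤ x'} := by
  ext z
  simp only [segment, Set.mem_ofPred_eq]
  constructor
  · rintro ⟨s, t, hs, ht, hst, rfl⟩
    simp only [Complex.add_re, Complex.add_im, Complex.smul_re, Complex.smul_im, smul_eq_mul]
    have hs' : s = 1 - t := by linarith
    subst hs'
    refine ⟨by ring, by nlinarith, by nlinarith⟩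
  · rintro ⟨h1, h2, h3⟩
    rcases eq_or_lt_of_le hx with h | h
    · refine ⟨1, 0, by norm_num, by norm_num, by norm_num, ?_⟩
      apply Complex.ext <;> simp <;> linarith
    · have hd : x' - x ≠ 0 := by linarith
      refine ⟨(x' - z.re) / (x' - x), (z.re - x) / (x' - x), div_nonneg (by linarith) (by linarith),
        div_nonneg (by linarith) (by linarith), ?_, ?_⟩
      · field_simp; ring
      · apply Complex.ext
        · simp only [Complex.add_re, Complex.smul_re, smul_eq_mul]; field_simp; ring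
        · simp only [Complex.add_im, Complex.smul_im, smul_eq_mul]; rw [h1]; field_simp; ring

theorem segV {x y y' : ℝ} (hy : y ≤ y') :
    segment ℝ (⟨x, y⟩ : ℂ) ⟨x, y'⟩ = {z | z.re = x ∧ y ≤ z.im ∧ z.im ≤ y'} := by
  ext z
  simp only [segment, Set.mem_ofPred_eq]
  constructor
  · rintro ⟨s, t, hs, ht, hst, rfl⟩
    simp only [Complex.add_re, Complex.add_im, Complex.smul_re, Complex.smul_im, smul_eq_mul]
    have hs' : s = 1 - t := by linarith
    subst hs'
    refine ⟨by ring, by nlinarith, by nlinarith⟩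
  · rintro ⟨h1, h2, h3⟩
    rcases eq_or_lt_of_le hy with h | h
    · refine ⟨1, 0, by norm_num, by norm_num, by norm_num, ?_⟩
      apply Complex.ext <;> simp <;> linarith
    · have hd : y' - y ≠ 0 := by linarith
      refine ⟨(y' - z.im) / (y' - y), (z.im - y) / (y' - y), div_nonneg (by linarith) (by linarith),
        div_nonneg (by linarith) (by linarith), ?_, ?_⟩
      · field_simp; ring
      · apply Complex.ext
        · simp only [Complex.add_re, Complex.smul_re, smul_eq_mul]; rw [h1]; field_simp; ring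
        · simp only [Complex.add_im, Complex.smul_im, smul_eq_mul]; field_simp; ring

theorem rect_polygon {a b w h : ℝ} (hw : 0 < w) (hh : 0 < h) : IsPolygon (rect a b w h) := by
  have s0 : segment ℝ (⟨a, b⟩ : ℂ) ⟨a + w, b⟩ = {z | z.im = b ∧ a ≤ z.re ∧ z.re ≤ a + w} := segH (by linarith)
  have s1 : segment ℝ (⟨a + w, b⟩ : ℂ) ⟨a + w, b + h⟩ = {z | z.re = a + w ∧ b ≤ z.im ∧ z.im ≤ b + h} :=
    segV (by linarith)
  have s2 : segment ℝ (⟨a + w, b + h⟩ : ℂ) ⟨a, b + h⟩ = {z | z.im = b + h ∧ a ≤ z.re ∧ z.re ≤ a + w} := by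
    rw [segment_symm]; exact segH (by linarith)
  have s3 : segment ℝ (⟨a, b + h⟩ : ℂ) ⟨a, b⟩ = {z | z.re = a ∧ b ≤ z.im ∧ z.im ≤ b + h} := by
    rw [segment_symm]; exact segV (by linarith)
  refine ⟨1, ![⟨a, b⟩, ⟨a + w, b⟩, ⟨a + w, b + h⟩, ⟨a, b + h⟩], ?_, ?_, ?_, rect_compact a b w h,
    (closure_interior_rect hw hh).symm, ?_⟩
  · intro i j hij
    fin_cases i <;> fin_cases j <;> simp [Complex.ext_iff] at hij ⊢ <;> linarith
  · have e0 : ∀ z : ℂ, z.re = a → z.im = b → z = ⟨a, b⟩ := fun z h1 h2 => Complex.ext h1 h2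
    have e1 : ∀ z : ℂ, z.re = a + w → z.im = b → z = ⟨a + w, b⟩ := fun z h1 h2 => Complex.ext h1 h2
    have e2 : ∀ z : ℂ, z.re = a + w → z.im = b + h → z = ⟨a + w, b + h⟩ := fun z h1 h2 => Complex.ext h1 h2
    have e3 : ∀ z : ℂ, z.re = a → z.im = b + h → z = ⟨a, b + h⟩ := fun z h1 h2 => Complex.ext h1 h2
    have key : ∀ i j : Fin 4, i < j → 
        segment ℝ ((![⟨a, b⟩, ⟨a + w, b⟩, ⟨a + w, b + h⟩, ⟨a, b + h⟩] : Fin 4 → ℂ) i)
          ((![⟨a, b⟩, ⟨a + w, b⟩, ⟨a + w, b + h⟩, ⟨a, b + h⟩] : Fin 4 → ℂ) (i + 1)) ∩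
        segment ℝ ((![⟨a, b⟩, ⟨a + w, b⟩, ⟨a + w, b + h⟩, ⟨a, b + h⟩] : Fin 4 → ℂ) j)
          ((![⟨a, b⟩, ⟨a + w, b⟩, ⟨a + w, b + h⟩, ⟨a, b + h⟩] : Fin 4 → ℂ) (j + 1)) ⊆
        {(![⟨a, b⟩, ⟨a + w, b⟩, ⟨a + w, b + h⟩, ⟨a, b + h⟩] : Fin 4 → ℂ) i,
          (![⟨a, b⟩, ⟨a + w, b⟩, ⟨a + w, b + h⟩, ⟨a, b + h⟩] : Fin 4 → ℂ) (i + 1)} ∩
        {(![⟨a, b⟩, ⟨a + w, b⟩, ⟨a + w, b + h⟩, ⟨a, b + h⟩] : Fin 4 → ℂ) j,
          (![⟨a, b⟩, ⟨a + w, b⟩, ⟨a + w, b + h⟩, ⟨a, b + h⟩] : Fin 4 → ℂ) (j + 1)} := by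
      intro i j hij z hz
      fin_cases i <;> fin_cases j
      · exact absurd hij (by decide)
      · change z ∈ segment ℝ (⟨a, b⟩ : ℂ) ⟨a + w, b⟩ ∩ segment ℝ (⟨a + w, b⟩ : ℂ) ⟨a + w, b + h⟩ at hz
        rw [s0, s1] at hz
        rw [e1 z hz.2.1 hz.1.1]
        exact ⟨Or.inr rfl, Or.inl rfl⟩
      · change z ∈ segment ℝ (⟨a, b⟩ : ℂ) ⟨a + w, b⟩ ∩ segment ℝ (⟨a + w, b + h⟩ : ℂ) ⟨a, b + h⟩ at hz
        rw [s0, s2] at hz
        have := hz.1.1; have := hz.2.1
        exfalso; linarith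
      · change z ∈ segment ℝ (⟨a, b⟩ : ℂ) ⟨a + w, b⟩ ∩ segment ℝ (⟨a, b + h⟩ : ℂ) ⟨a, b⟩ at hz
        rw [s0, s3] at hz
        rw [e0 z hz.2.1 hz.1.1]
        exact ⟨Or.inl rfl, Or.inr rfl⟩
      · exact absurd hij (by decide)
      · exact absurd hij (by decide)
      · change z ∈ segment ℝ (⟨a + w, b⟩ : ℂ) ⟨a + w, b + h⟩ ∩ segment ℝ (⟨a + w, b + h⟩ : ℂ) ⟨a, b + h⟩ at hz
        rw [s1, s2] at hz
        rw [e2 z hz.1.1 hz.2.1]
        exact ⟨Or.inr rfl, Or.inl rfl⟩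
      · change z ∈ segment ℝ (⟨a + w, b⟩ : ℂ) ⟨a + w, b + h⟩ ∩ segment ℝ (⟨a, b + h⟩ : ℂ) ⟨a, b⟩ at hz
        rw [s1, s3] at hz
        have := hz.1.1; have := hz.2.1
        exfalso; linarith
      · exact absurd hij (by decide)
      · exact absurd hij (by decide)
      · exact absurd hij (by decide)
      · change z ∈ segment ℝ (⟨a + w, b + h⟩ : ℂ) ⟨a, b + h⟩ ∩ segment ℝ (⟨a, b + h⟩ : ℂ) ⟨a, b⟩ at hz
        rw [s2, s3] at hz
        rw [e3 z hz.2.1 hz.1.1]
        exact ⟨Or.inr rfl, Or.inl rfl⟩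
      · exact absurd hij (by decide)
      · exact absurd hij (by decide)
      · exact absurd hij (by decide)
      · exact absurd hij (by decide)
    intro i j hij
    rcases lt_or_gt_of_ne hij with h1 | h1
    · exact key i j h1
    · rw [Set.inter_comm, Set.inter_comm {_, _}]
      exact key j i h1
  · rw [frontier_rect]
    ext z
    simp only [Set.mem_iUnion, Set.mem_ofPred_eq, mem_rect]
    constructor
    · rintro ⟨⟨h1, h2, h3, h4⟩, h5 | h5 | h5 | h5⟩
      · refine ⟨3, ?_⟩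
        change z ∈ segment ℝ (⟨a, b + h⟩ : ℂ) ⟨a, b⟩
        rw [s3]; exact ⟨h5, h3, h4⟩
      · refine ⟨1, ?_⟩
        change z ∈ segment ℝ (⟨a + w, b⟩ : ℂ) ⟨a + w, b + h⟩
        rw [s1]; exact ⟨h5, h3, h4⟩
      · refine ⟨0, ?_⟩
        change z ∈ segment ℝ (⟨a, b⟩ : ℂ) ⟨a + w, b⟩
        rw [s0]; exact ⟨h5, h1, h2⟩
      · refine ⟨2, ?_⟩
        change z ∈ segment ℝ (⟨a + w, b + h⟩ : ℂ) ⟨a, b + h⟩
        rw [s2]; exact ⟨h5, h1, h2⟩
    · rintro ⟨i, hi⟩
      fin_cases i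
      · change z ∈ segment ℝ (⟨a, b⟩ : ℂ) ⟨a + w, b⟩ at hi
        rw [s0] at hi
        obtain ⟨h1, h2, h3⟩ := hi
        exact ⟨⟨h2, h3, by linarith, by linarith⟩, Or.inr (Or.inr (Or.inl h1))⟩
      · change z ∈ segment ℝ (⟨a + w, b⟩ : ℂ) ⟨a + w, b + h⟩ at hi
        rw [s1] at hi
        obtain ⟨h1, h2, h3⟩ := hi
        exact ⟨⟨by linarith, by linarith, h2, h3⟩, Or.inr (Or.inl h1)⟩
      · change z ∈ segment ℝ (⟨a + w, b + h⟩ : ℂ) ⟨a, b + h⟩ at hi
        rw [s2] at hi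
        obtain ⟨h1, h2, h3⟩ := hi
        exact ⟨⟨h2, h3, by linarith, by linarith⟩, Or.inr (Or.inr (Or.inr h1))⟩
      · change z ∈ segment ℝ (⟨a, b + h⟩ : ℂ) ⟨a, b⟩ at hi
        rw [s3] at hi
        obtain ⟨h1, h2, h3⟩ := hi
        exact ⟨⟨by linarith, by linarith, h2, h3⟩, Or.inl h1⟩
  · constructor
    · refine ⟨⟨a + w / 2, b + h / 2⟩, ?_⟩
      rw [interior_rect]
      exact ⟨by simp; linarith, by simp; linarith, by simp; linarith, by simp; linarith⟩
    · apply Convex.isPreconnected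
      apply Convex.interior
      rintro x ⟨x1, x2, x3, x4⟩ y ⟨y1, y2, y3, y4⟩ s t hs ht hst
      rw [mem_rect]
      simp only [Complex.add_re, Complex.add_im, Complex.smul_re, Complex.smul_im, smul_eq_mul]
      have hs' : s = 1 - t := by linarith
      subst hs'
      refine ⟨by nlinarith, by nlinarith, by nlinarith, by nlinarith⟩

/-- integer cells -/
theorem cell (x : ℝ) (m n : ℤ) (h : m < n) (h1 : (m : ℝ) ≤ x) (h2 : x ≤ n) :
    ∃ i : ℤ, m ≤ i ∧ i < n ∧ (i : ℝ) ≤ x ∧ x ≤ i + 1 := by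
  rcases eq_or_lt_of_le h2 with h3 | h3
  · refine ⟨n - 1, by omega, by omega, ?_, ?_⟩
    · push_cast; linarith
    · push_cast; linarith
  · exact ⟨⌊x⌋, Int.le_floor.2 h1, Int.floor_lt.2 h3, Int.floor_le x, (Int.lt_floor_add_one x).le⟩

theorem block_cover (i j : ℤ) (z : ℂ) (hz : z ∈ rect (2 * i) (2 * j) 2 2) :
    ∃ t ∈ Dom, z ∈ t ∧ t ⊆ rect (2 * i) (2 * j) 2 2 := by
  obtain ⟨h1, h2, h3, h4⟩ := hz
  by_cases hij : Even i ∧ Even j
  · obtain ⟨k, k1, k2, k3, k4⟩ := cell z.re (2 * i) (2 * i + 2) (by omega) (by push_cast; linarith)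
      (by push_cast; linarith)
    refine ⟨rect (2 * i + (k - 2 * i : ℤ)) (2 * j) 1 2, ⟨i, j, k - 2 * i, by omega, Or.inl ⟨hij.1, hij.2, rfl⟩⟩,
      ?_, ?_⟩
    · refine ⟨by push_cast; linarith, by push_cast; linarith, h3, h4⟩
    · rintro w ⟨w1, w2, w3, w4⟩
      push_cast at w1 w2
      have c1 : (2 * i : ℝ) ≤ k := by exact_mod_cast k1
      have c2 : (k : ℝ) + 1 ≤ 2 * i + 2 := by exact_mod_cast k2
      exact ⟨by linarith, by linarith, w3, w4⟩
  · obtain ⟨k, k1, k2, k3, k4⟩ := cell z.im (2 * j) (2 * j + 2) (by omega) (by push_cast; linarith)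
      (by push_cast; linarith)
    refine ⟨rect (2 * i) (2 * j + (k - 2 * j : ℤ)) 2 1, ⟨i, j, k - 2 * j, by omega, Or.inr ⟨hij, rfl⟩⟩,
      ?_, ?_⟩
    · refine ⟨h1, h2, by push_cast; linarith, by push_cast; linarith⟩
    · rintro w ⟨w1, w2, w3, w4⟩
      push_cast at w3 w4
      have c1 : (2 * j : ℝ) ≤ k := by exact_mod_cast k1
      have c2 : (k : ℝ) + 1 ≤ 2 * j + 2 := by exact_mod_cast k2
      exact ⟨w1, w2, by linarith, by linarith⟩

theorem dom_union : ⋃₀ Dom = Set.univ := by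
  rw [Set.eq_univ_iff_forall]
  intro z
  obtain ⟨t, ht, hz, -⟩ := block_cover ⌊z.re / 2⌋ ⌊z.im / 2⌋ z (by
    have h1 := Int.floor_le (z.re / 2)
    have h2 := Int.lt_floor_add_one (z.re / 2)
    have h3 := Int.floor_le (z.im / 2)
    have h4 := Int.lt_floor_add_one (z.im / 2)
    exact ⟨by linarith, by linarith, by linarith, by linarith⟩)
  exact ⟨t, ht, hz⟩

theorem dom_interior_disjoint (t t' : Set ℂ) (ht : t ∈ Dom) (ht' : t' ∈ Dom) (z : ℂ) (hz : z ∈ interior t)
    (hz' : z ∈ interior t') : t = t' := by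
  have key : ∀ (x : ℝ) (m n a b : ℤ), 0 ≤ a → 0 ≤ b → ((m : ℝ) < x) → (x < m + a) → ((n : ℝ) < x) → (x < n + b) →
      m < n + b ∧ n < m + a := by
    intro x m n a b _ _ h1 h2 h3 h4
    constructor
    · have : (m : ℝ) < n + b := by linarith
      exact_mod_cast this
    · have : (n : ℝ) < m + a := by linarith
      exact_mod_cast this
  obtain ⟨i, j, k, hk, h⟩ := ht
  obtain ⟨i', j', k', hk', h'⟩ := ht'
  -- the blocks agree
  have hb : (2 * i : ℝ) < z.re ∧ z.re < 2 * i + 2 ∧ (2 * j : ℝ) < z.im ∧ z.im < 2 * j + 2 := by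
    have c1 : (0 : ℝ) ≤ k := by rcases hk with rfl | rfl <;> norm_num
    have c2 : (k : ℝ) ≤ 1 := by rcases hk with rfl | rfl <;> norm_num
    rcases h with ⟨-, -, rfl⟩ | ⟨-, rfl⟩
    · rw [interior_rect] at hz
      obtain ⟨a1, a2, a3, a4⟩ := hz
      exact ⟨by linarith, by linarith, by linarith, by linarith⟩
    · rw [interior_rect] at hz
      obtain ⟨a1, a2, a3, a4⟩ := hz
      exact ⟨by linarith, by linarith, by linarith, by linarith⟩
  have hb' : (2 * i' : ℝ) < z.re ∧ z.re < 2 * i' + 2 ∧ (2 * j' : ℝ) < z.im ∧ z.im < 2 * j' + 2 := by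
    have c1 : (0 : ℝ) ≤ k' := by rcases hk' with rfl | rfl <;> norm_num
    have c2 : (k' : ℝ) ≤ 1 := by rcases hk' with rfl | rfl <;> norm_num
    rcases h' with ⟨-, -, rfl⟩ | ⟨-, rfl⟩
    · rw [interior_rect] at hz'
      obtain ⟨a1, a2, a3, a4⟩ := hz'
      exact ⟨by linarith, by linarith, by linarith, by linarith⟩
    · rw [interior_rect] at hz'
      obtain ⟨a1, a2, a3, a4⟩ := hz'
      exact ⟨by linarith, by linarith, by linarith, by linarith⟩
  have hi : i = i' := by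
    have c1 : (2 * i : ℝ) < 2 * i' + 2 := by linarith
    have c2 : (2 * i' : ℝ) < 2 * i + 2 := by linarith
    have c1' : 2 * i < 2 * i' + 2 := by exact_mod_cast c1
    have c2' : 2 * i' < 2 * i + 2 := by exact_mod_cast c2
    omega
  have hj : j = j' := by
    have c1 : (2 * j : ℝ) < 2 * j' + 2 := by linarith
    have c2 : (2 * j' : ℝ) < 2 * j + 2 := by linarith
    have c1' : 2 * j < 2 * j' + 2 := by exact_mod_cast c1
    have c2' : 2 * j' < 2 * j + 2 := by exact_mod_cast c2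
    omega
  subst hi; subst hj
  rcases h with ⟨ei, ej, rfl⟩ | ⟨ne, rfl⟩
  · rcases h' with ⟨-, -, rfl⟩ | ⟨ne', -⟩
    · rw [interior_rect] at hz hz'
      have c1 : (k : ℝ) < k' + 1 := by linarith [hz.1, hz'.2.1]
      have c2 : (k' : ℝ) < k + 1 := by linarith [hz'.1, hz.2.1]
      have c1' : k < k' + 1 := by exact_mod_cast c1
      have c2' : k' < k + 1 := by exact_mod_cast c2
      have : k = k' := by omega
      rw [this]
    · exact absurd ⟨ei, ej⟩ ne'
  · rcases h' with ⟨ei', ej', -⟩ | ⟨-, rfl⟩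
    · exact absurd ⟨ei', ej'⟩ ne
    · rw [interior_rect] at hz hz'
      have c1 : (k : ℝ) < k' + 1 := by linarith [hz.2.2.1, hz'.2.2.2]
      have c2 : (k' : ℝ) < k + 1 := by linarith [hz'.2.2.1, hz.2.2.2]
      have c1' : k < k' + 1 := by exact_mod_cast c1
      have c2' : k' < k + 1 := by exact_mod_cast c2
      have : k = k' := by omega
      rw [this]

theorem dom_tiling : IsTiling Dom := by
  refine ⟨?_, dom_union, ?_⟩
  · intro t ht
    obtain ⟨a, b, rfl | rfl⟩ := dom_cases ht <;> exact rect_compact _ _ _ _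
  · have key : ∀ t ∈ Dom, ∀ t' ∈ Dom, t ≠ t' → ∀ z ∈ t ∩ t', z ∈ frontier t := by
      intro t ht t' ht' hne z hz
      have hc : IsClosed t := by
        obtain ⟨a, b, rfl | rfl⟩ := dom_cases ht <;> exact (rect_compact _ _ _ _).isClosed
      have hci : closure (interior t') = t' := by
        obtain ⟨a, b, rfl | rfl⟩ := dom_cases ht'
        · exact closure_interior_rect one_pos two_pos
        · exact closure_interior_rect two_pos one_pos
      rw [hc.frontier_eq]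
      refine ⟨hz.1, fun hzi => hne ?_⟩
      have hz' : z ∈ closure (interior t') := by rw [hci]; exact hz.2
      obtain ⟨y, hy1, hy2⟩ := mem_closure_iff.1 hz' _ isOpen_interior hzi
      exact dom_interior_disjoint t t' ht ht' y hy1 hy2
    intro t ht t' ht' hne z hz
    exact ⟨key t ht t' ht' hne z hz, key t' ht' t ht (Ne.symm hne) z ⟨hz.2, hz.1⟩⟩

theorem dom_selfSimilar : SelfSimilar Dom := by
  refine ⟨2, fun z => 2 * z, by norm_num, ⟨by norm_num, fun x y => ?_⟩, ?_⟩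
  · rw [dist_eq_norm, ← mul_sub, norm_mul, ← dist_eq_norm]; simp
  · -- doubled rectangles with integer corners and sides
    have himg : ∀ a b w h : ℝ, (fun z : ℂ => 2 * z) '' rect a b w h = rect (2 * a) (2 * b) (2 * w) (2 * h) := by
      intro a b w h
      ext z
      simp only [Set.mem_image, mem_rect]
      constructor
      · rintro ⟨x, ⟨h1, h2, h3, h4⟩, rfl⟩
        simp only [Complex.mul_re, Complex.mul_im, Complex.re_ofNat, Complex.im_ofNat]
        refine ⟨by linarith, by linarith, by linarith, by linarith⟩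
      · rintro ⟨h1, h2, h3, h4⟩
        refine ⟨z / 2, ?_, by ring⟩
        have e1 : (z / 2).re = z.re / 2 := by simp
        have e2 : (z / 2).im = z.im / 2 := by simp
        rw [e1, e2]
        refine ⟨by linarith, by linarith, by linarith, by linarith⟩
    have key : ∀ a b w h : ℤ, 0 < w → 0 < h → ∃ V ⊆ Dom, rect (2 * a) (2 * b) (2 * w) (2 * h) = ⋃₀ V := by
      intro a b w h hw hh
      refine ⟨{t ∈ Dom | t ⊆ rect (2 * a) (2 * b) (2 * w) (2 * h)}, fun t ht => ht.1, ?_⟩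
      apply Set.Subset.antisymm
      · rintro z ⟨h1, h2, h3, h4⟩
        obtain ⟨i, i1, i2, i3, i4⟩ := cell (z.re / 2) a (a + w) (by omega) (by linarith) (by push_cast; linarith)
        obtain ⟨j, j1, j2, j3, j4⟩ := cell (z.im / 2) b (b + h) (by omega) (by linarith) (by push_cast; linarith)
        obtain ⟨t, ht, hzt, hts⟩ := block_cover i j z ⟨by linarith, by linarith, by linarith, by linarith⟩
        refine ⟨t, ⟨ht, fun y hy => ?_⟩, hzt⟩
        obtain ⟨y1, y2, y3, y4⟩ := hts hy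
        have c1 : (a : ℝ) ≤ i := by exact_mod_cast i1
        have c2 : (i : ℝ) + 1 ≤ a + w := by exact_mod_cast i2
        have c3 : (b : ℝ) ≤ j := by exact_mod_cast j1
        have c4 : (j : ℝ) + 1 ≤ b + h := by exact_mod_cast j2
        exact ⟨by linarith, by linarith, by linarith, by linarith⟩
      · rintro z ⟨t, ⟨-, ht⟩, hz⟩
        exact ht hz
    intro t ht
    obtain ⟨i, j, k, hk, ⟨-, -, rfl⟩ | ⟨-, rfl⟩⟩ := ht
    · obtain ⟨V, hV, hV'⟩ := key (2 * i + k) (2 * j) 1 2 one_pos two_pos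
      refine ⟨V, hV, ?_⟩
      rw [himg, ← hV']
      push_cast
      rfl
    · obtain ⟨V, hV, hV'⟩ := key (2 * i) (2 * j + k) 2 1 two_pos one_pos
      refine ⟨V, hV, ?_⟩
      rw [himg, ← hV']
      push_cast
      rfl

/-- translation as an isometry -/
noncomputable def trE (v : ℂ) : ℂ ≃ᵢ ℂ := IsometryEquiv.addRight v

theorem trE_image (x y a b w h : ℝ) : trE ⟨x, y⟩ '' rect a b w h = rect (a + x) (b + y) w h := by
  ext z
  simp only [Set.mem_image, mem_rect, trE, IsometryEquiv.addRight_apply]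
  constructor
  · rintro ⟨u, ⟨h1, h2, h3, h4⟩, rfl⟩
    simp only [Complex.add_re, Complex.add_im]
    refine ⟨by linarith, by linarith, by linarith, by linarith⟩
  · rintro ⟨h1, h2, h3, h4⟩
    refine ⟨z - ⟨x, y⟩, ?_, by ring⟩
    simp only [Complex.sub_re, Complex.sub_im]
    refine ⟨by linarith, by linarith, by linarith, by linarith⟩

/-- the reflection that swaps the coordinates -/
noncomputable def swE : ℂ ≃ᵢ ℂ where
  toFun z := ⟨z.im, z.re⟩
  invFun z := ⟨z.im, z.re⟩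
  left_inv z := rfl
  right_inv z := rfl
  isometry_toFun := by
    apply Isometry.of_dist_eq
    intro x y
    rw [Complex.dist_eq_re_im, Complex.dist_eq_re_im, add_comm]

theorem swE_image (a b w h : ℝ) : swE '' rect a b w h = rect b a h w := by
  ext z
  simp only [Set.mem_image, mem_rect]
  constructor
  · rintro ⟨u, ⟨h1, h2, h3, h4⟩, rfl⟩
    exact ⟨h3, h4, h1, h2⟩
  · rintro ⟨h1, h2, h3, h4⟩
    exact ⟨⟨z.im, z.re⟩, ⟨h3, h4, h1, h2⟩, rfl⟩

theorem dom_congruent : ∀ t ∈ Dom, Congruent (rect 0 0 1 2) t := by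
  intro t ht
  obtain ⟨a, b, rfl | rfl⟩ := dom_cases ht
  · refine ⟨trE ⟨a, b⟩, ?_⟩
    rw [trE_image, zero_add, zero_add]
  · refine ⟨swE.trans (trE ⟨a, b⟩), ?_⟩
    have hc : ⇑(swE.trans (trE ⟨a, b⟩)) = ⇑(trE ⟨a, b⟩) ∘ ⇑swE := rfl
    rw [hc, Set.image_comp, swE_image, trE_image, zero_add, zero_add]

theorem dom_finiteOrder : FiniteOrder Dom := by
  refine ⟨{rect 0 0 1 2}, ?_, ?_⟩
  · simpa using ver_mem
  · intro t ht
    exact ⟨_, Finset.mem_singleton_self _, dom_congruent t ht⟩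

theorem dom_similar : ∀ t ∈ Dom, ∀ t' ∈ Dom, ∃ (r : ℝ) (f : ℂ → ℂ), IsSim r f ∧ t' = f '' t := by
  intro t ht t' ht'
  obtain ⟨g, hg⟩ := dom_congruent t ht
  obtain ⟨g', hg'⟩ := dom_congruent t' ht'
  refine ⟨1, g.symm.trans g', ⟨one_pos, fun x y => ?_⟩, ?_⟩
  · rw [(g.symm.trans g').dist_eq, one_mul]
  · have hc : ⇑(g.symm.trans g') = ⇑g' ∘ ⇑g.symm := rfl
    rw [hg', hg, hc, Set.image_comp, ← Set.image_comp g.symm g]
    congr 1
    have : (⇑g.symm ∘ ⇑g) = id := by funext z; simp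
    rw [this, Set.image_id]

theorem dom_translate (m n : ℤ) (t : Set ℂ) (ht : t ∈ Dom) : trE ⟨4 * m, 4 * n⟩ '' t ∈ Dom := by
  obtain ⟨i, j, k, hk, ⟨hi, hj, rfl⟩ | ⟨hij, rfl⟩⟩ := ht
  · refine ⟨i + 2 * m, j + 2 * n, k, hk, Or.inl ⟨?_, ?_, ?_⟩⟩
    · exact hi.add (even_two_mul m)
    · exact hj.add (even_two_mul n)
    · rw [trE_image]; push_cast; congr 1 <;> ring
  · refine ⟨i + 2 * m, j + 2 * n, k, hk, Or.inr ⟨?_, ?_⟩⟩
    · rw [Int.even_add, Int.even_add]
      simpa using hij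
    · rw [trE_image]; push_cast; congr 1 <;> ring

theorem dom_quasiPeriodic : QuasiPeriodic Dom := by
  rintro U ⟨hU, ⟨φ⟩⟩
  have hcomp : IsCompact (⋃₀ U) := by
    rw [isCompact_iff_compactSpace]
    have : CompactSpace ↥(Metric.closedBall (0 : ℂ) 1) :=
      isCompact_iff_compactSpace.1 (isCompact_closedBall _ _)
    exact φ.symm.compactSpace
  obtain ⟨ρ, hρ⟩ := hcomp.isBounded.subset_closedBall 0
  refine ⟨|ρ| + 8, by positivity, fun x => ?_⟩
  set m := ⌊x.re / 4⌋ with hm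
  set n := ⌊x.im / 4⌋ with hn
  set g := trE ⟨4 * m, 4 * n⟩ with hg
  have himg : ⋃₀ ((fun t : Set ℂ => g '' t) '' U) = g '' ⋃₀ U := by
    rw [Set.sUnion_image, Set.sUnion_eq_biUnion, Set.image_iUnion₂]
  refine ⟨(fun t : Set ℂ => g '' t) '' U, ⟨?_, ?_⟩, ?_, g, rfl⟩
  · rintro _ ⟨t, ht, rfl⟩
    exact dom_translate m n t (hU ht)
  · rw [himg]
    exact ⟨(g.toHomeomorph.image (⋃₀ U)).symm.trans φ⟩
  · rw [himg]
    rintro _ ⟨z, hz, rfl⟩
    have h1 := hρ hz
    rw [Metric.mem_closedBall, dist_zero_right] at h1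
    rw [Metric.mem_closedBall, dist_eq_norm]
    have h2 : g z = z + ⟨4 * m, 4 * n⟩ := rfl
    rw [h2]
    have h3 : ‖(⟨4 * m, 4 * n⟩ : ℂ) - x‖ ≤ 8 := by
      refine le_trans (Complex.norm_le_abs_re_add_abs_im _) ?_
      have a1 := Int.floor_le (x.re / 4)
      have a2 := Int.lt_floor_add_one (x.re / 4)
      have a3 := Int.floor_le (x.im / 4)
      have a4 := Int.lt_floor_add_one (x.im / 4)
      have b1 : |((⟨4 * m, 4 * n⟩ : ℂ) - x).re| ≤ 4 := by
        rw [abs_le]; simp only [Complex.sub_re]; constructor <;> linarith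
      have b2 : |((⟨4 * m, 4 * n⟩ : ℂ) - x).im| ≤ 4 := by
        rw [abs_le]; simp only [Complex.sub_im]; constructor <;> linarith
      linarith
    calc ‖z + ⟨4 * m, 4 * n⟩ - x‖ = ‖z + (⟨4 * m, 4 * n⟩ - x)‖ := by rw [add_sub_assoc]
      _ ≤ ‖z‖ + ‖(⟨4 * m, 4 * n⟩ : ℂ) - x‖ := norm_add_le _ _
      _ ≤ |ρ| + 8 := add_le_add (le_trans h1 (le_abs_self _)) h3

theorem dom_polygon : ∀ t ∈ Dom, IsPolygon t := by
  intro t ht
  obtain ⟨a, b, rfl | rfl⟩ := dom_cases ht
  · exact rect_polygon one_pos two_pos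
  · exact rect_polygon two_pos one_pos

/-- There is a self-similar polygonal tiling of the plane that is not obtained by the generating-pair method. -/
theorem result : ∃ T : Set (Set ℂ), IsSSPT T ∧
    ∀ (N : ℕ) (p : Set ℂ) (F : Fin N → ℂ ≃ ℂ) (s : ℝ) (a : Fin N → ℕ) (θ : ℕ → Fin N),
      IsGenPair N p F s a → T ≠ TT p F a θ :=
  ⟨Dom, ⟨dom_tiling, dom_selfSimilar, dom_quasiPeriodic, dom_finiteOrder, dom_polygon, dom_similar⟩,
    fun N p F s a θ hG hT => main_neg N p F s a θ hG hT⟩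

end Pool.Agent.Results.MP_4b3b27_co.NotFromPair
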